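import Mathlib

/-!
# Project LV of helper20: (EIS), first half: `X ^ (m e) - m (X - 1) ^ n`, `n = (m - 1) e + j`, is separable over `ℚ` (helper15)
-/

set_option autoImplicit false

namespace Pool.Agent.J4H15.LV

open Polynomial

theorem le_choose : ∀ (N n : ℕ), 1 ≤ n → n < N → N ≤ N.choose n := by
  intro N
  induction N with
  | zero => intro n h1 h2; omega
  | succ N ih =>
    intro n h1 h2
    obtain ⟨n', rfl⟩ : ∃ n', n = n' + 1 := ⟨n - 1, by omega⟩
    rw [Nat.choose_succ_succ']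
    rcases Nat.lt_or_ge (n' + 1) N with h3 | h3
    · have h4 := ih (n' + 1) h1 h3
      have h5 : 0 < N.choose n' := Nat.choose_pos (by omega)
      omega
    · have h4 : N = n' + 1 := by omega
      subst h4
      rw [Nat.choose_self, Nat.choose_succ_self_right]

/-- `N ^ N > m n ^ n r ^ r` for `N = n + r`, `m ≤ N` -/
theorem pow_gt {m N n r : ℕ} (hN : N = n + r) (hn : 1 ≤ n) (hr : 1 ≤ r) (hm : m ≤ N) :
    m * n ^ n * r ^ r < N ^ N := by
  have h1 : N ^ N = ∑ i ∈ Finset.range (N + 1), n ^ i * r ^ (N - i) * N.choose i := by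
    conv_lhs => rw [show N ^ N = (n + r) ^ N by rw [← hN]]
    exact add_pow n r N
  have hne : n ≠ N := by omega
  have h2 : ∑ i ∈ ({n, N} : Finset ℕ), n ^ i * r ^ (N - i) * N.choose i ≤ N ^ N := by
    rw [h1]
    refine Finset.sum_le_sum_of_subset fun i hi => ?_
    rw [Finset.mem_insert, Finset.mem_singleton] at hi
    rw [Finset.mem_range]
    omega
  rw [Finset.sum_pair hne, Nat.choose_self, Nat.sub_self, show N - n = r by omega, pow_zero,
    mul_one, mul_one] at h2
  have h3 := le_choose N n hn (by omega)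
  have h4 : 0 < n ^ N := by positivity
  have h5 : m * n ^ n * r ^ r ≤ n ^ n * r ^ r * N.choose n := by
    calc m * n ^ n * r ^ r = n ^ n * r ^ r * m := by ring
      _ ≤ n ^ n * r ^ r * N.choose n := Nat.mul_le_mul_left _ (hm.trans h3)
  omega

/-- `X ^ (m e) - m (X - 1) ^ n`, `n = (m - 1) e + j`, is separable. -/
theorem sep (m e j : ℕ) (hm : 2 ≤ m) (hj : j < e) :
    (X ^ (m * e) - C (m : ℚ) * (X - 1) ^ ((m - 1) * e + j) : ℚ[X]).Separable := by
  obtain ⟨N, hN⟩ : ∃ N, N = m * e := ⟨_, rfl⟩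
  obtain ⟨n, hn⟩ : ∃ n, n = (m - 1) * e + j := ⟨_, rfl⟩
  obtain ⟨r, hr⟩ : ∃ r, r = e - j := ⟨_, rfl⟩
  have hme : m * e = (m - 1) * e + e := by
    obtain ⟨m', rfl⟩ : ∃ m', m = m' + 1 := ⟨m - 1, by omega⟩
    rw [Nat.add_sub_cancel]
    ring
  have hNn : N = n + r := by omega
  have he1 : 1 ≤ e := by omega
  have hn1 : 1 ≤ n := by
    have : 1 ≤ (m - 1) * e := Nat.mul_pos (by omega) he1
    omega
  have hr1 : 1 ≤ r := by omega
  have hmN : m ≤ N := by
    rw [hN]
    exact Nat.le_mul_of_pos_right m he1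
  rw [← hN, ← hn]
  rw [separable_def, isCoprime_iff_aeval_ne_zero_of_isAlgClosed ℚ ℂ]
  intro a
  by_contra hcon
  push Not at hcon
  obtain ⟨h1, h2⟩ := hcon
  have e1 : a ^ N = m * (a - 1) ^ n := by
    simp only [map_sub, map_mul, map_pow, aeval_X, map_one, map_natCast] at h1
    exact sub_eq_zero.1 h1
  have e2 : (N : ℂ) * a ^ (N - 1) = m * (n * (a - 1) ^ (n - 1)) := by
    rw [derivative_sub, derivative_X_pow, derivative_C_mul, derivative_pow] at h2
    simp only [map_sub, map_mul, map_pow, aeval_X, map_one, map_natCast, derivative_X,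
      derivative_one, sub_zero, mul_one] at h2
    exact sub_eq_zero.1 h2
  have ha1 : a - 1 ≠ 0 := by
    intro h
    rw [h, zero_pow (by omega), mul_zero] at e1
    have h3 : a = 0 := pow_eq_zero_iff (by omega) |>.1 e1
    rw [h3] at h
    norm_num at h
  have hm0 : (m : ℂ) ≠ 0 := by
    have : m ≠ 0 := by omega
    exact_mod_cast this
  have e3 : (N : ℂ) * (a - 1) = n * a := by
    have h3 : (N : ℂ) * a ^ N * (a - 1) = m * n * (a - 1) ^ n * a := by
      have h4 : a ^ N = a ^ (N - 1) * a := by rw [← pow_succ, Nat.sub_add_cancel (by omega)]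
      have h5 : (a - 1) ^ n = (a - 1) ^ (n - 1) * (a - 1) := by
        rw [← pow_succ, Nat.sub_add_cancel (by omega)]
      calc (N : ℂ) * a ^ N * (a - 1) = (N * a ^ (N - 1)) * (a * (a - 1)) := by rw [h4]; ring
        _ = m * (n * (a - 1) ^ (n - 1)) * (a * (a - 1)) := by rw [e2]
        _ = m * n * (a - 1) ^ n * a := by rw [h5]; ring
    rw [e1] at h3
    have h6 : (m : ℂ) * (a - 1) ^ n ≠ 0 := mul_ne_zero hm0 (pow_ne_zero _ ha1)
    have h7 : (m : ℂ) * (a - 1) ^ n * (N * (a - 1)) = m * (a - 1) ^ n * (n * a) := by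
      linear_combination h3
    exact mul_left_cancel₀ h6 h7
  have e4 : (r : ℂ) * a = N := by
    rw [hNn] at e3 ⊢
    push_cast at e3 ⊢
    linear_combination e3
  have e5 : (r : ℂ) * (a - 1) = n := by
    have : (N : ℂ) = n + r := by rw [hNn]; push_cast; rfl
    linear_combination e4 + this
  have e6 : (N : ℂ) ^ N = m * n ^ n * r ^ r := by
    calc (N : ℂ) ^ N = (r * a) ^ N := by rw [e4]
      _ = r ^ N * a ^ N := mul_pow _ _ _
      _ = r ^ N * (m * (a - 1) ^ n) := by rw [e1]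
      _ = m * (r * (a - 1)) ^ n * r ^ r := by
          rw [mul_pow, show (r : ℂ) ^ N = r ^ n * r ^ r by rw [← pow_add, ← hNn]]
          ring
      _ = m * n ^ n * r ^ r := by rw [e5]
  have e7 : N ^ N = m * n ^ n * r ^ r := by exact_mod_cast e6
  have e8 := pow_gt hNn hn1 hr1 hmN
  omega

end Pool.Agent.J4H15.LV
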