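import Pool.Agent.J4H20.LV.Stm
import Pool.Agent.J4H19.TP.R1P
import Pool.Agent.J4H15.LV.Sep
import Pool.Agent.H884R2.Sko.Split

/-!
# Project LV of helper20: (EIS) (helper15)
-/

set_option autoImplicit false

namespace Pool.Agent.J4H15.LV

open Polynomial Pool.Agent.J4H20.LV

/-- an integral Bezout identity -/
theorem bez_int (F G : ℤ[X])
    (h : IsCoprime (F.map (algebraMap ℤ ℚ)) (G.map (algebraMap ℤ ℚ))) :
    ∃ (A B : ℤ[X]) (Δ : ℤ), Δ ≠ 0 ∧ A * F + B * G = C Δ := by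
  obtain ⟨a, b, hab⟩ := h
  obtain ⟨u, hu⟩ := IsLocalization.integerNormalization_map_to_map (nonZeroDivisors ℤ) a
  obtain ⟨v, hv⟩ := IsLocalization.integerNormalization_map_to_map (nonZeroDivisors ℤ) b
  refine ⟨C (v : ℤ) * IsLocalization.integerNormalization (nonZeroDivisors ℤ) a,
    C (u : ℤ) * IsLocalization.integerNormalization (nonZeroDivisors ℤ) b, (u : ℤ) * v,
    mul_ne_zero (nonZeroDivisors.coe_ne_zero u) (nonZeroDivisors.coe_ne_zero v), ?_⟩
  apply Polynomial.map_injective (algebraMap ℤ ℚ) (algebraMap ℤ ℚ).injective_int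
  rw [Polynomial.map_add, Polynomial.map_mul, Polynomial.map_mul, Polynomial.map_mul,
    Polynomial.map_mul, map_C, map_C, map_C, hu, hv]
  have e1 : ((u : ℤ) • a : ℚ[X]) = C (algebraMap ℤ ℚ (u : ℤ)) * a := by
    rw [← smul_eq_C_mul]
    exact (algebraMap_smul ℚ (u : ℤ) a).symm
  have e2 : ((v : ℤ) • b : ℚ[X]) = C (algebraMap ℤ ℚ (v : ℤ)) * b := by
    rw [← smul_eq_C_mul]
    exact (algebraMap_smul ℚ (v : ℤ) b).symm
  rw [e1, e2, map_mul, C_mul]
  linear_combination (C (algebraMap ℤ ℚ (u : ℤ)) * C (algebraMap ℤ ℚ (v : ℤ))) * hab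

theorem C_dvd_of_map {T : ℕ} {P : ℤ[X]} (h : P.map (Int.castRingHom (ZMod T)) = 0) :
    C (T : ℤ) ∣ P := by
  rw [C_dvd_iff_dvd_coeff]
  intro i
  rw [← ZMod.intCast_zmod_eq_zero_iff_dvd]
  have h1 := congrArg (fun Q => coeff Q i) h
  simpa only [coeff_map, coeff_zero, eq_intCast] using h1

/-- a splitting separable polynomial modulo `T` -/
theorem exists_rho {T : ℕ} [Fact T.Prime] {ι : Type} [Fintype ι] (f : (ZMod T)[X]) (hf : f.Monic)
    (hs : f.Splits) (hsep : f.Separable) (hd : f.natDegree = Fintype.card ι) :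
    ∃ ρ : ι → ℤ, (∀ i i', i ≠ i' → ¬ (T : ℤ) ∣ ρ i - ρ i') ∧
      (∏ i, (X - C (ρ i))).map (Int.castRingHom (ZMod T)) = f := by
  classical
  have hnd : f.roots.Nodup := nodup_roots hsep
  have hcard : f.roots.toFinset.card = Fintype.card ι := by
    rw [Multiset.toFinset_card_of_nodup hnd, ← hd]
    exact hs.natDegree_eq_card_roots.symm
  obtain ⟨σ⟩ : Nonempty (ι ≃ f.roots.toFinset) := by
    rw [← Fintype.card_eq, Fintype.card_coe, hcard]
  have hsurj := ZMod.intCast_surjective (n := T)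
  refine ⟨fun i => Function.surjInv hsurj (σ i : ZMod T), fun i i' hne hdvd => ?_, ?_⟩
  · apply hne
    have h1 := (ZMod.intCast_zmod_eq_zero_iff_dvd _ T).2 hdvd
    rw [Int.cast_sub, Function.surjInv_eq hsurj, Function.surjInv_eq hsurj, sub_eq_zero] at h1
    exact σ.injective (Subtype.ext h1)
  · rw [Polynomial.map_prod]
    have h1 : ∀ i, ((X - C (Function.surjInv hsurj (σ i : ZMod T)) : ℤ[X]).map
        (Int.castRingHom (ZMod T))) = X - C ((σ i : f.roots.toFinset) : ZMod T) := by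
      intro i
      rw [Polynomial.map_sub, map_X, map_C]
      congr 2
      exact Function.surjInv_eq hsurj _
    rw [Finset.prod_congr rfl fun i _ => h1 i,
      Equiv.prod_comp σ (fun x : f.roots.toFinset => (X - C (x : ZMod T) : (ZMod T)[X])),
      Finset.prod_coe_sort f.roots.toFinset (fun x : ZMod T => (X - C x : (ZMod T)[X]))]
    conv_rhs => rw [hs.eq_prod_roots_of_monic hf]
    rw [Finset.prod_multiset_map_count]
    refine Finset.prod_congr rfl fun x hx => ?_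
    rw [Multiset.count_eq_one_of_mem hnd (Multiset.mem_toFinset.1 hx), pow_one]

/-- the coefficients of `(G + H) ^ (p + 2) - G ^ (p + 2) - R` -/
theorem h_monic {K : Type} [Field K] {p e j : ℕ} (hp : ((p + 2 : ℕ) : K) ≠ 0) (hj : j < e)
    {G R : K[X]} (hG : G.Monic) (hGe : G.natDegree = e)
    (hR : ∀ k, (p + 1) * e ≤ k → R.coeff k = 0)
    (h : (X ^ e : K[X]) ^ (p + 2) - C ((p + 2 : ℕ) : K) * (X - 1) ^ ((p + 1) * e + j) =
      G ^ (p + 2) + R) : (X ^ e - G).Monic ∧ (X ^ e - G).natDegree = j := by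
  obtain ⟨H, hH⟩ : ∃ H, H = X ^ e - G := ⟨_, rfl⟩
  rw [← hH]
  obtain ⟨d, hd⟩ : ∃ d, d = H.natDegree := ⟨_, rfl⟩
  have hGH : X ^ e = G + H := by rw [hH]; ring
  have he : 0 < e := by omega
  have hde : d < e := by
    rw [hd]
    by_cases h0 : H = 0
    · rw [h0, natDegree_zero]
      exact he
    · rw [natDegree_lt_iff_degree_lt h0, hH]
      have h1 : (X ^ e : K[X]).degree = e := degree_X_pow e
      have h2 : G.degree = e := by rw [degree_eq_natDegree hG.ne_zero, hGe]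
      have h3 := degree_sub_lt (h1.trans h2.symm) (monic_X_pow e).ne_zero
        (by rw [(monic_X_pow e).leadingCoeff, hG.leadingCoeff])
      rwa [h1] at h3
  obtain ⟨Q, hQ, hQd⟩ := Pool.Agent.J4H19.TP.expand G H e d hGe.le hd.ge (by omega) p
  have key : C ((p + 2 : ℕ) : K) * (X - 1) ^ ((p + 1) * e + j) =
      ((p + 2 : ℕ) : K[X]) * H * G ^ (p + 1) + Q - R := by
    rw [hGH, hQ] at h
    linear_combination -h
  have hX1 : (X - 1 : K[X]) = X - C 1 := by rw [C_1]
  have hXm : ((X - 1 : K[X]) ^ ((p + 1) * e + j)).Monic := by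
    rw [hX1]
    exact (monic_X_sub_C 1).pow _
  have hXd : ((X - 1 : K[X]) ^ ((p + 1) * e + j)).natDegree = (p + 1) * e + j := by
    rw [hX1, (monic_X_sub_C (1 : K)).natDegree_pow, natDegree_X_sub_C, mul_one]
  have hGm : (G ^ (p + 1)).Monic := hG.pow _
  have hGd : (G ^ (p + 1)).natDegree = (p + 1) * e := by rw [hG.natDegree_pow, hGe]
  have hpe : (p + 1) * e = p * e + e := by ring
  have hco : ∀ k, d + (p + 1) * e ≤ k → (C ((p + 2 : ℕ) : K) * (X - 1) ^ ((p + 1) * e + j)).coeff k =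
      ((p + 2 : ℕ) : K) * (H * G ^ (p + 1)).coeff k := by
    intro k hk
    rw [key, coeff_sub, coeff_add, hR k (by omega),
      coeff_eq_zero_of_natDegree_lt (p := Q) (by omega), mul_assoc, ← C_eq_natCast, coeff_C_mul]
    ring
  have hdj : d = j := by
    rcases lt_trichotomy d j with h1 | h1 | h1
    · exfalso
      have h2 := hco ((p + 1) * e + j) (by omega)
      have h3 : (H * G ^ (p + 1)).coeff ((p + 1) * e + j) = 0 := by
        refine coeff_eq_zero_of_natDegree_lt ?_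
        refine lt_of_le_of_lt natDegree_mul_le ?_
        rw [hGd, ← hd]
        omega
      rw [coeff_C_mul, h3, mul_zero] at h2
      have h4 : ((X - 1 : K[X]) ^ ((p + 1) * e + j)).coeff ((p + 1) * e + j) = 1 := by
        conv_lhs => rw [← hXd]
        rw [hXd] 
        have := hXm.coeff_natDegree
        rwa [hXd] at this
      rw [h4, mul_one] at h2
      exact hp h2
    · exact h1
    · exfalso
      have h2 := hco (d + (p + 1) * e) le_rfl
      have h3 : ((X - 1 : K[X]) ^ ((p + 1) * e + j)).coeff (d + (p + 1) * e) = 0 :=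
        coeff_eq_zero_of_natDegree_lt (by rw [hXd]; omega)
      have h4 : (H * G ^ (p + 1)).coeff (d + (p + 1) * e) = H.leadingCoeff := by
        conv_lhs => rw [hd, ← hGd]
        rw [coeff_mul_degree_add_degree, hGm.leadingCoeff, mul_one]
      rw [coeff_C_mul, h3, h4, mul_zero] at h2
      have h5 : H ≠ 0 := by
        rintro rfl
        rw [natDegree_zero] at hd
        omega
      exact mul_ne_zero hp (leadingCoeff_ne_zero.2 h5) h2.symm
  refine ⟨?_, by rw [← hd, hdj]⟩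
  have h2 := hco (d + (p + 1) * e) le_rfl
  have h3 : ((X - 1 : K[X]) ^ ((p + 1) * e + j)).coeff (d + (p + 1) * e) = 1 := by
    have := hXm.coeff_natDegree
    rw [hXd] at this
    rwa [hdj, add_comm j]
  have h4 : (H * G ^ (p + 1)).coeff (d + (p + 1) * e) = H.leadingCoeff := by
    conv_lhs => rw [hd, ← hGd]
    rw [coeff_mul_degree_add_degree, hGm.leadingCoeff, mul_one]
  rw [coeff_C_mul, h3, h4, mul_one] at h2
  have h5 : ((p + 2 : ℕ) : K) * 1 = ((p + 2 : ℕ) : K) * H.leadingCoeff := by rw [mul_one]; exact h2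
  exact (mul_left_cancel₀ hp h5).symm

/-- (EIS) -/
theorem t_EIS : S_EIS := by
  intro m' e j B hm hj
  obtain ⟨p, rfl⟩ : ∃ p, m' = p + 2 := ⟨m' - 2, by omega⟩
  have hsub : p + 2 - 1 = p + 1 := by omega
  have he : 0 < e := by omega
  obtain ⟨F, hF⟩ : ∃ F : ℤ[X], F = X ^ ((p + 2) * e) - C ((p + 2 : ℕ) : ℤ) * (X - 1) ^ ((p + 1) * e + j) :=
    ⟨_, rfl⟩
  have hn : (p + 1) * e + j < (p + 2) * e := by
    have : (p + 2) * e = (p + 1) * e + e := by ring
    omega
  have hX1 : ∀ (R : Type) [CommRing R], (X - 1 : R[X]) = X - C 1 := fun R _ => by rw [C_1]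
  have hdeg : (C ((p + 2 : ℕ) : ℤ) * (X - 1) ^ ((p + 1) * e + j) : ℤ[X]).natDegree ≤
      (p + 1) * e + j := by
    refine (natDegree_C_mul_le _ _).trans ?_
    rw [hX1 ℤ, (monic_X_sub_C (1 : ℤ)).natDegree_pow, natDegree_X_sub_C, mul_one]
  have hFm : F.Monic := by
    rw [hF, sub_eq_add_neg]
    refine (monic_X_pow _).add_of_left ?_
    rw [degree_neg, degree_X_pow]
    refine lt_of_le_of_lt degree_le_natDegree ?_
    exact_mod_cast lt_of_le_of_lt hdeg hn
  have hFd : F.natDegree = (p + 2) * e := by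
    rw [hF, natDegree_sub_eq_left_of_natDegree_lt, natDegree_X_pow]
    rw [natDegree_X_pow]
    exact lt_of_le_of_lt hdeg hn
  -- separability
  have hsepQ := sep (p + 2) e j hm hj
  rw [hsub] at hsepQ
  have hFQ : F.map (algebraMap ℤ ℚ) =
      X ^ ((p + 2) * e) - C (((p + 2 : ℕ) : ℚ)) * (X - 1) ^ ((p + 1) * e + j) := by
    rw [hF, Polynomial.map_sub, Polynomial.map_pow, map_X, Polynomial.map_mul, map_C,
      Polynomial.map_pow, Polynomial.map_sub, map_X, Polynomial.map_one, map_natCast]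
  rw [← hFQ, separable_def, derivative_map] at hsepQ
  obtain ⟨A, B', Δ, hΔ, hbez⟩ := bez_int F (derivative F) hsepQ
  obtain ⟨T, hT, hTN, hTs⟩ := Pool.Agent.H884R2.Sko.exists_split F hFm (B + (p + 2) + Δ.natAbs)
  have : Fact T.Prime := ⟨hT⟩
  obtain ⟨φ, hφ⟩ : ∃ φ, φ = Int.castRingHom (ZMod T) := ⟨_, rfl⟩
  rw [← hφ] at hTs
  have hTΔ : φ Δ ≠ 0 := by
    rw [hφ]
    intro h
    have h1 := (ZMod.intCast_zmod_eq_zero_iff_dvd Δ T).1 h
    have h2 := Int.natAbs_dvd_natAbs.2 h1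
    rw [Int.natAbs_natCast] at h2
    have h3 := Nat.le_of_dvd (Int.natAbs_pos.2 hΔ) h2
    omega
  have hTp : ((p + 2 : ℕ) : ZMod T) ≠ 0 := by
    intro h
    rw [ZMod.natCast_eq_zero_iff] at h
    have h3 := Nat.le_of_dvd (by omega) h
    omega
  have hsepT : (F.map φ).Separable := by
    rw [separable_def, derivative_map]
    have h1 := congrArg (Polynomial.map φ) hbez
    rw [Polynomial.map_add, Polynomial.map_mul, Polynomial.map_mul, map_C] at h1
    refine ⟨C (φ Δ)⁻¹ * A.map φ, C (φ Δ)⁻¹ * B'.map φ, ?_⟩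
    have h2 : (C (φ Δ)⁻¹ * C (φ Δ) : (ZMod T)[X]) = 1 := by
      rw [← C_mul, inv_mul_cancel₀ hTΔ, C_1]
    linear_combination C (φ Δ)⁻¹ * h1 + h2
  have hfm : (F.map φ).Monic := hFm.map φ
  have hfd : (F.map φ).natDegree = (p + 2) * e := by rw [hFm.natDegree_map, hFd]
  obtain ⟨ρ, hρ1, hρ2⟩ := exists_rho (ι := Fin (p + 2) × Fin e) (F.map φ) hfm hTs hsepT
    (by rw [hfd]; simp)
  obtain ⟨G, hG, hGe, hGc⟩ := Pool.Agent.J4H19.TP.root_step p (((p + 2 : ℕ) : ZMod T))⁻¹
    (mul_inv_cancel₀ hTp) e (F.map φ) hfm hfd e le_rfl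
  obtain ⟨R, hR⟩ : ∃ R, R = F.map φ - G ^ (p + 2) := ⟨_, rfl⟩
  have hRc : ∀ k, (p + 1) * e ≤ k → R.coeff k = 0 := by
    intro k hk
    rw [hR]
    refine hGc k ?_
    have : (p + 2) * e = (p + 1) * e + e := by ring
    omega
  have hFT : F.map φ = X ^ ((p + 2) * e) - C (((p + 2 : ℕ) : ZMod T)) * (X - 1) ^ ((p + 1) * e + j) := by
    rw [hF, Polynomial.map_sub, Polynomial.map_pow, map_X, Polynomial.map_mul, map_C,
      Polynomial.map_pow, Polynomial.map_sub, map_X, Polynomial.map_one, map_natCast]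
  obtain ⟨hHm, hHd⟩ := h_monic (K := ZMod T) (p := p) (e := e) (j := j) hTp hj hG hGe hRc (by
    rw [hR, ← pow_mul, mul_comm e, hFT]
    ring)
  -- lifts
  have hlift : ∀ P : (ZMod T)[X], P ∈ lifts φ := by
    intro P
    exact mem_lifts_of_surjective (f := φ) (by rw [hφ]; exact ZMod.intCast_surjective) P
  obtain ⟨g₀, hg1, hg2, hg3⟩ := lifts_and_degree_eq_and_monic (hlift G) hG
  obtain ⟨h₀, hh1, hh2, hh3⟩ := lifts_and_degree_eq_and_monic (hlift (X ^ e - G)) hHm
  obtain ⟨r₀, hr1, hr2⟩ := exists_degree_eq_of_mem_lifts (hlift R)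
  refine ⟨T, ρ, g₀, r₀, h₀, hT, by omega, hρ1, hg3, ?_, hh3, ?_, ?_, ?_, ?_, ?_⟩
  · rw [natDegree_eq_of_degree_eq hg2, hGe]
  · rw [natDegree_eq_of_degree_eq hh2, hHd]
  · rw [hr2, hsub, degree_lt_iff_coeff_zero]
    exact fun k hk => hRc k hk
  · apply C_dvd_of_map
    rw [← hφ] at hρ2 ⊢
    rw [Polynomial.map_sub, Polynomial.map_add, Polynomial.map_pow, hρ2, hg1, hr1, hR]
    ring
  · apply C_dvd_of_map
    rw [← hφ, Polynomial.map_sub, Polynomial.map_add, Polynomial.map_pow, map_X, hg1, hh1]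
    ring
  · apply C_dvd_of_map
    rw [← hφ, Polynomial.map_sub, Polynomial.map_sub, Polynomial.map_pow, Polynomial.map_add,
      Polynomial.map_add, Polynomial.map_pow, hg1, hh1, hr1, hR, Polynomial.map_mul,
      Polynomial.map_pow, Polynomial.map_sub, map_X, map_C, Polynomial.map_one, hFT, hsub]
    have e1 : φ ((p + 2 : ℕ) : ℤ) = ((p + 2 : ℕ) : ZMod T) := by rw [map_natCast]
    rw [e1, pow_mul']
    ring

end Pool.Agent.J4H15.LV
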